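import Pool.Agent.WIR.StmtsB

set_option autoImplicit false

namespace Pool.Agent.WIR.H69

theorem tlm_aux {S : Finset ℕ} {a c : ℕ} (hac : a ≤ c)
    (hS : ∀ x ∈ S, ∀ y ∈ S, x < y → y < x + a ∨ x + c < y) {i i' x x' : ℕ}
    (hi : i < c / a + 1) (hx : x ∈ S) (hx' : x' ∈ S) (h : x + i * a = x' + i' * a) : ¬ x < x' := by
  intro hlt
  have h1 : i' < i := by
    by_contra hc
    push Not at hc
    have : i * a ≤ i' * a := Nat.mul_le_mul_right _ hc
    omega
  obtain ⟨e, rfl⟩ : ∃ e, i = i' + (e + 1) := ⟨i - i' - 1, by omega⟩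
  have h2 : x' = x + (e + 1) * a := by
    rw [add_mul] at h
    omega
  have h3 : (e + 1) * a ≤ c := by
    have : (e + 1) * a ≤ (c / a) * a := Nat.mul_le_mul_right _ (by omega)
    exact this.trans (Nat.div_mul_le_self _ _)
  have h4 : a ≤ (e + 1) * a := Nat.le_mul_of_pos_left _ (Nat.succ_pos e)
  rcases hS x hx x' hx' hlt with h5 | h5 <;> omega

theorem tlm : TlmStmt := by
  intro q S a c V ha hac hq h1 hV hS
  have hV0 : 0 ≤ V := by simpa using hV 0
  have hfin : ∀ A : Finset ℕ, ∑ k ∈ A, q k ≤ 1 := by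
    intro A
    obtain ⟨n, hn⟩ := A.exists_nat_subset_range
    exact (Finset.sum_le_sum_of_subset_of_nonneg hn (fun i _ _ => hq i)).trans (h1 n)
  have hfinV : ∀ A : Finset ℕ, ∑ k ∈ A, |q (k + 1) - q k| ≤ V := by
    intro A
    obtain ⟨n, hn⟩ := A.exists_nat_subset_range
    exact (Finset.sum_le_sum_of_subset_of_nonneg hn (fun i _ _ => abs_nonneg _)).trans (hV n)
  have hshift : ∀ τ : ℕ, ∑ x ∈ S, q x ≤ ∑ x ∈ S, q (x + τ) + τ * V := by
    intro τ
    induction τ with
    | zero => simp
    | succ τ ih =>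
      have h2 : ∑ x ∈ S, |q (x + τ + 1) - q (x + τ)| ≤ V := by
        have := hfinV (S.map (addRightEmbedding τ))
        rw [Finset.sum_map] at this
        simpa using this
      have h3 : ∑ x ∈ S, q (x + τ) ≤
          ∑ x ∈ S, q (x + (τ + 1)) + ∑ x ∈ S, |q (x + τ + 1) - q (x + τ)| := by
        rw [← Finset.sum_add_distrib]
        refine Finset.sum_le_sum fun x _ => ?_
        have := neg_abs_le (q (x + τ + 1) - q (x + τ))
        rw [← add_assoc]
        linarith
      push_cast
      linarith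
  set R := c / a + 1 with hR
  have hdisj : ∑ i ∈ Finset.range R, ∑ x ∈ S, q (x + i * a) ≤ 1 := by
    rw [← Finset.sum_product']
    have hinj : Set.InjOn (fun z : ℕ × ℕ => z.2 + z.1 * a)
        (Finset.range R ×ˢ S : Finset (ℕ × ℕ)) := by
      rintro ⟨i, x⟩ h ⟨i', x'⟩ h' he
      rw [Finset.mem_coe, Finset.mem_product, Finset.mem_range] at h h'
      simp only at h h' he
      have e1 := tlm_aux hac hS h.1 h.2 h'.2 he
      have e2 := tlm_aux hac hS h'.1 h'.2 h.2 he.symm
      have e3 : x = x' := by omega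
      subst e3
      have e4 : i * a = i' * a := by omega
      have e5 : i = i' := Nat.eq_of_mul_eq_mul_right (by omega) e4
      rw [e5]
    have := hfin ((Finset.range R ×ˢ S).image (fun z : ℕ × ℕ => z.2 + z.1 * a))
    rwa [Finset.sum_image hinj] at this
  have hR0 : (0 : ℝ) < R := by rw [hR]; positivity
  have hc0 : (0 : ℝ) < c := by exact_mod_cast lt_of_lt_of_le ha hac
  have hsum : (R : ℝ) * ∑ x ∈ S, q x ≤ 1 + R * (c * V) := by
    have h2 : ∀ i ∈ Finset.range R, ∑ x ∈ S, q x ≤ ∑ x ∈ S, q (x + i * a) + c * V := by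
      intro i hi
      refine (hshift (i * a)).trans (add_le_add_right ?_ _)
      refine mul_le_mul_of_nonneg_right ?_ hV0
      have h3 : i * a ≤ c := by
        have : i * a ≤ (c / a) * a := Nat.mul_le_mul_right _ (by
          have := Finset.mem_range.1 hi
          omega)
        exact this.trans (Nat.div_mul_le_self _ _)
      exact_mod_cast h3
    have h4 := Finset.sum_le_sum h2
    rw [Finset.sum_const, Finset.card_range, nsmul_eq_mul, Finset.sum_add_distrib,
      Finset.sum_const, Finset.card_range, nsmul_eq_mul] at h4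
    linarith
  have hfinal : ∑ x ∈ S, q x ≤ 1 / R + c * V := by
    have h2 : ∑ x ∈ S, q x ≤ (1 + R * (c * V)) / R := by
      rw [le_div_iff₀ hR0]
      linarith
    refine h2.trans (le_of_eq ?_)
    field_simp
  refine hfinal.trans (add_le_add_left ?_ _)
  rw [div_le_div_iff₀ hR0 hc0, one_mul]
  have h5 : c ≤ a * R := by
    have := Nat.div_add_mod c a
    have h6 := Nat.mod_lt c (show 0 < a by omega)
    rw [hR, mul_add, mul_one]
    omega
  exact_mod_cast h5

end Pool.Agent.WIR.H69
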