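import Pool.Agent.WIR.StmtsE

set_option autoImplicit false

namespace Pool.Agent.WIR.H69

theorem choose_le_exp (hoe : HoeStmt) (s l : ℕ) (hs : 0 < s) :
    (s.choose l : ℝ) ≤ 2 ^ s * Real.exp (-((2 * (l : ℝ) - s) ^ 2 / (2 * s))) := by
  rcases Nat.lt_or_ge s l with h | h
  · rw [Nat.choose_eq_zero_of_lt h, Nat.cast_zero]
    positivity
  rcases le_total (s : ℝ) (2 * l) with h1 | h1
  · have h2 := (hoe s (2 * l - s) hs (by linarith)).1
    refine le_trans ?_ h2
    exact Finset.single_le_sum (f := fun r => (s.choose r : ℝ)) (fun _ _ => Nat.cast_nonneg _)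
      (Finset.mem_filter.2 ⟨Finset.mem_range.2 (by omega), le_refl _⟩)
  · have h2 := (hoe s (s - 2 * l) hs (by linarith)).2
    rw [show (2 * (l : ℝ) - s) ^ 2 = (s - 2 * l) ^ 2 by ring]
    refine le_trans ?_ h2
    exact Finset.single_le_sum (f := fun r => (s.choose r : ℝ)) (fun _ _ => Nat.cast_nonneg _)
      (Finset.mem_filter.2 ⟨Finset.mem_range.2 (by omega), le_refl _⟩)

theorem Mz_pos (n l : ℕ) (hn : 1 ≤ n) : 0 < Mz n l := by unfold Mz; omega

theorem en_nonneg (n l : ℕ) : 0 ≤ en n l := by unfold en; positivity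

theorem en_le (hoe : HoeStmt) (flo : FloStmt) (n l : ℕ) (hn : 1 ≤ n) :
    en n l ≤ 2 ^ n * Real.exp (-((2 * (l : ℝ) - Mz n l) ^ 2 / (2 * Mz n l))) := by
  rw [en, div_le_iff₀ (by positivity)]
  refine (choose_le_exp hoe _ l (Mz_pos n l hn)).trans ?_
  have h1 : (2 : ℝ) ^ Mz n l ≤ 2 ^ n * 3 ^ l := by exact_mod_cast (flo.2.1 n l).1
  calc (2 : ℝ) ^ Mz n l * Real.exp (-((2 * (l : ℝ) - Mz n l) ^ 2 / (2 * Mz n l)))
      ≤ (2 ^ n * 3 ^ l) * Real.exp (-((2 * (l : ℝ) - Mz n l) ^ 2 / (2 * Mz n l))) :=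
        mul_le_mul_of_nonneg_right h1 (Real.exp_nonneg _)
    _ = _ := by ring

/-- `l` large. -/
theorem en_le_large (hoe : HoeStmt) (flo : FloStmt) (n l : ℕ) (hn : 1 ≤ n) (hl : 10 * n < l) :
    en n l ≤ 2 ^ n * Real.exp (-((l : ℝ) / 40)) := by
  refine (en_le hoe flo n l hn).trans ?_
  refine mul_le_mul_of_nonneg_left (Real.exp_le_exp.2 (neg_le_neg ?_)) (by positivity)
  have h1 : (5 : ℝ) * Mz n l ≤ 5 * n + 8 * l := by exact_mod_cast flo.2.2.2 n l
  have h2 : (10 : ℝ) * n ≤ l := by exact_mod_cast hl.le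
  have h3 : (0 : ℝ) < Mz n l := by exact_mod_cast Mz_pos n l hn
  have hl0 : (0 : ℝ) ≤ l := Nat.cast_nonneg _
  rw [div_le_div_iff₀ (by norm_num) (by positivity)]
  have h4 : (Mz n l : ℝ) ≤ 17 / 10 * l := by linarith
  have h5 : 3 / 10 * (l : ℝ) ≤ 2 * l - Mz n l := by linarith
  have h6 : (3 / 10 * (l : ℝ)) ^ 2 ≤ (2 * l - Mz n l) ^ 2 :=
    pow_le_pow_left₀ (by positivity) h5 2
  nlinarith

theorem mn_spec (n : ℕ) (hn : 1 ≤ n) : 1 ≤ mn n ∧ n + 1 ≤ 64 * mn n ^ 6 := by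
  have h1 : 1 ≤ mn n := Nat.le_findGreatest hn (by simpa using hn)
  refine ⟨h1, ?_⟩
  have h2 : n < (mn n + 1) ^ 6 := by
    by_contra h
    push Not at h
    have h3 : mn n + 1 ≤ n := le_trans (Nat.le_self_pow (by norm_num) _) h
    have h4 := Nat.le_findGreatest (P := fun m => m ^ 6 ≤ n) h3 h
    unfold mn at *
    omega
  have h3 : (mn n + 1) ^ 6 ≤ (2 * mn n) ^ 6 := Nat.pow_le_pow_left (by omega) 6
  have h4 : (2 * mn n) ^ 6 = 64 * mn n ^ 6 := by ring
  omega

/-- `l ≤ 10 n` not typical. -/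
theorem en_le_small (hoe : HoeStmt) (flo : FloStmt) (n l : ℕ) (hn : 1 ≤ n) (hl : l ≤ 10 * n)
    (hT : l ∉ Ty n) : en n l ≤ 2 ^ n * Real.exp (-((mn n : ℝ) ^ 2 / 2176)) := by
  refine (en_le hoe flo n l hn).trans ?_
  refine mul_le_mul_of_nonneg_left (Real.exp_le_exp.2 (neg_le_neg ?_)) (by positivity)
  have h0 : (mn n : ℤ) ^ 4 < |2 * (l : ℤ) - Mz n l| := by
    by_contra h
    push Not at h
    exact hT (Finset.mem_filter.2 ⟨Finset.mem_range.2 (by omega), h⟩)
  have h0' : (mn n : ℝ) ^ 4 ≤ |2 * (l : ℝ) - Mz n l| := by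
    have := h0.le
    exact_mod_cast this
  have h1 : (5 : ℝ) * Mz n l ≤ 5 * n + 8 * l := by exact_mod_cast flo.2.2.2 n l
  have h2 : (l : ℝ) ≤ 10 * n := by exact_mod_cast hl
  have h3 : (0 : ℝ) < Mz n l := by exact_mod_cast Mz_pos n l hn
  have h4 : (Mz n l : ℝ) ≤ 17 * n := by linarith
  obtain ⟨h5, h6⟩ := mn_spec n hn
  have h6' : (n : ℝ) ≤ 64 * (mn n : ℝ) ^ 6 := by
    have : n ≤ 64 * mn n ^ 6 := by omega
    exact_mod_cast this
  have h7 : ((mn n : ℝ) ^ 4) ^ 2 ≤ (2 * (l : ℝ) - Mz n l) ^ 2 := by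
    rw [← sq_abs (2 * (l : ℝ) - Mz n l)]
    exact pow_le_pow_left₀ (by positivity) h0' 2
  have h8 : (Mz n l : ℝ) ≤ 1088 * (mn n : ℝ) ^ 6 := by linarith
  rw [div_le_div_iff₀ (by norm_num) (by positivity)]
  calc (mn n : ℝ) ^ 2 * (2 * Mz n l) ≤ (mn n : ℝ) ^ 2 * (2 * (1088 * (mn n : ℝ) ^ 6)) := by
        refine mul_le_mul_of_nonneg_left ?_ (by positivity)
        linarith
    _ = ((mn n : ℝ) ^ 4) ^ 2 * 2176 := by ring
    _ ≤ _ := mul_le_mul_of_nonneg_right h7 (by norm_num)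

/-- decay in `n` of the small part -/
theorem small_decay : ∃ B : ℝ, 0 ≤ B ∧ ∀ n : ℕ, 1 ≤ n →
    ((n : ℝ) + 1) ^ 5 * Real.exp (-((mn n : ℝ) ^ 2 / 2176)) ≤ B := by
  refine ⟨64 ^ 5 * (2176 ^ 15 * (Nat.factorial 15 : ℝ)), by positivity, fun n hn => ?_⟩
  obtain ⟨h5, h6⟩ := mn_spec n hn
  have h6' : (n : ℝ) + 1 ≤ 64 * (mn n : ℝ) ^ 6 := by exact_mod_cast h6
  have hm : (0 : ℝ) < mn n := by exact_mod_cast h5
  have h7 : ((n : ℝ) + 1) ^ 5 ≤ (64 * (mn n : ℝ) ^ 6) ^ 5 := pow_le_pow_left₀ (by positivity) h6' 5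
  have h8 := Real.pow_div_factorial_le_exp ((mn n : ℝ) ^ 2 / 2176) (by positivity) 15
  rw [Real.exp_neg, ← div_eq_mul_inv, div_le_iff₀ (Real.exp_pos _)]
  calc ((n : ℝ) + 1) ^ 5 ≤ (64 * (mn n : ℝ) ^ 6) ^ 5 := h7
    _ = 64 ^ 5 * (2176 ^ 15 * (Nat.factorial 15 : ℝ)) *
        (((mn n : ℝ) ^ 2 / 2176) ^ 15 / (Nat.factorial 15 : ℝ)) := by
        have : (Nat.factorial 15 : ℝ) ≠ 0 := by positivity
        field_simp
    _ ≤ _ := mul_le_mul_of_nonneg_left h8 (by positivity)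

theorem large_decay : ∃ B : ℝ, 0 ≤ B ∧ ∀ n : ℕ, 1 ≤ n →
    ((n : ℝ) + 1) ^ 4 * Real.exp (-((n : ℝ) / 8)) ≤ B := by
  refine ⟨16 * (8 ^ 4 * (Nat.factorial 4 : ℝ)), by positivity, fun n hn => ?_⟩
  have hn' : (1 : ℝ) ≤ n := by exact_mod_cast hn
  have h7 : ((n : ℝ) + 1) ^ 4 ≤ (2 * (n : ℝ)) ^ 4 := pow_le_pow_left₀ (by positivity)
    (by linarith) 4
  have h8 := Real.pow_div_factorial_le_exp ((n : ℝ) / 8) (by positivity) 4
  rw [Real.exp_neg, ← div_eq_mul_inv, div_le_iff₀ (Real.exp_pos _)]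
  calc ((n : ℝ) + 1) ^ 4 ≤ (2 * (n : ℝ)) ^ 4 := h7
    _ = 16 * (8 ^ 4 * (Nat.factorial 4 : ℝ)) * (((n : ℝ) / 8) ^ 4 / (Nat.factorial 4 : ℝ)) := by
        have : (Nat.factorial 4 : ℝ) ≠ 0 := by positivity
        field_simp
        ring
    _ ≤ _ := mul_le_mul_of_nonneg_left h8 (by positivity)

theorem log_step (l : ℕ) : Nat.log 2 (3 ^ l) + 1 ≤ Nat.log 2 (3 ^ (l + 1)) ∧
    Nat.log 2 (3 ^ (l + 1)) ≤ Nat.log 2 (3 ^ l) + 2 := by
  have h1 : 2 ^ Nat.log 2 (3 ^ l) ≤ 3 ^ l := Nat.pow_log_le_self 2 (by positivity)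
  have h2 : 3 ^ l < 2 ^ (Nat.log 2 (3 ^ l) + 1) := Nat.lt_pow_succ_log_self (by norm_num) _
  constructor
  · refine Nat.le_log_of_pow_le (by norm_num) ?_
    rw [pow_succ, pow_succ]
    omega
  · refine Nat.lt_succ_iff.1 (Nat.log_lt_of_lt_pow (by positivity) ?_)
    rw [pow_succ] at h2
    rw [Nat.succ_eq_add_one, pow_succ, pow_succ, pow_succ, pow_succ]
    omega

theorem exists_zero (flo : FloStmt) (n : ℕ) (hn : 1 ≤ n) : ∃ l, l ≤ 3 * n ∧ Mz n l = 2 * l := by
  have hex : ∃ l, Mz n l ≤ 2 * l := ⟨3 * n, by have := flo.2.2.2 n (3 * n); omega⟩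
  classical
  have hle : Nat.find hex ≤ 3 * n := Nat.find_min' hex (by have := flo.2.2.2 n (3 * n); omega)
  refine ⟨Nat.find hex, hle, le_antisymm (Nat.find_spec hex) ?_⟩
  have h0 : Nat.find hex ≠ 0 := by
    intro h
    have := Nat.find_spec hex
    rw [h] at this
    have := Mz_pos n 0 hn
    omega
  obtain ⟨l, hl⟩ := Nat.exists_eq_succ_of_ne_zero h0
  have h1 : ¬ Mz n l ≤ 2 * l := Nat.find_min hex (by omega)
  rw [hl]
  have h2 := (log_step l).1
  unfold Mz at h1 ⊢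
  simp only [Nat.succ_eq_add_one] at *
  omega

theorem tyb (hoe : HoeStmt) (flo : FloStmt) : TybStmt := by
  obtain ⟨B₁, hB₁, h₁⟩ := small_decay
  obtain ⟨B₂, hB₂, h₂⟩ := large_decay
  set ρ : ℝ := Real.exp (-(1 / 80)) with hρ
  have hρ0 : 0 < ρ := Real.exp_pos _
  have hρ1 : ρ < 1 := by rw [hρ, Real.exp_lt_one_iff]; norm_num
  have hgeo : Summable fun l : ℕ => ρ ^ l := summable_geometric_of_lt_one hρ0.le hρ1
  have hρl : ∀ l : ℕ, ρ ^ l = Real.exp (-((l : ℝ) / 80)) := by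
    intro l
    rw [hρ, ← Real.exp_nat_mul]
    congr 1
    ring
  refine ⟨11 * B₁ + B₂ * (1 - ρ)⁻¹, fun n hn => ?_⟩
  have hn1 : (0 : ℝ) < (n : ℝ) + 1 := by positivity
  -- summability
  have hsum : Summable (en n) := by
    have hb : ∀ l, en n l ≤ 2 ^ n * Real.exp ((n : ℝ) / 4) * ρ ^ l := by
      intro l
      rcases Nat.lt_or_ge (10 * n) l with hl | hl
      · refine (en_le_large hoe flo n l hn hl).trans ?_
        rw [mul_assoc, hρl, ← Real.exp_add]
        refine mul_le_mul_of_nonneg_left (Real.exp_le_exp.2 ?_) (by positivity)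
        have : (0 : ℝ) ≤ l := Nat.cast_nonneg _
        have : (0 : ℝ) ≤ n := Nat.cast_nonneg _
        linarith
      · have h3 := en_le hoe flo n l hn
        have h4 : Real.exp (-((2 * (l : ℝ) - Mz n l) ^ 2 / (2 * Mz n l))) ≤ 1 :=
          Real.exp_le_one_iff.2 (neg_nonpos.2 (by positivity))
        refine h3.trans ?_
        rw [mul_assoc, hρl, ← Real.exp_add]
        refine mul_le_mul_of_nonneg_left (h4.trans (Real.one_le_exp ?_)) (by positivity)
        have : (l : ℝ) ≤ 10 * n := by exact_mod_cast hl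
        linarith
    exact Summable.of_nonneg_of_le (en_nonneg n) hb (hgeo.mul_left _)
  refine ⟨hsum, ?_, ?_⟩
  · obtain ⟨l, hl, hM⟩ := exists_zero flo n hn
    refine le_trans ?_ (hsum.le_tsum l (fun j _ => en_nonneg n j))
    have h3 : (2 : ℝ) ^ n * 3 ^ l ≤ 2 ^ (2 * l + 1) := by
      have := (flo.2.1 n l).2.le
      rw [hM] at this
      exact_mod_cast this
    have h4 : (4 : ℝ) ^ l ≤ (2 * l + 1) * ((2 * l).choose l : ℝ) := by
      have := Nat.four_pow_le_two_mul_add_one_mul_central_binom l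
      exact_mod_cast this
    have hl' : (l : ℝ) ≤ 3 * n := by exact_mod_cast hl
    rw [en, hM, div_le_div_iff₀ (by positivity) (by positivity)]
    have h5 : (2 : ℝ) ^ (2 * l + 1) = 2 * 4 ^ l := by
      rw [pow_succ, pow_mul]
      norm_num
      ring
    have h6 : (0 : ℝ) ≤ ((2 * l).choose l : ℝ) := Nat.cast_nonneg _
    calc (2 : ℝ) ^ n * 3 ^ l ≤ 2 * 4 ^ l := by rw [← h5]; exact h3
      _ ≤ 2 * ((2 * l + 1) * ((2 * l).choose l : ℝ)) := by linarith
      _ = ((2 * l).choose l : ℝ) * (4 * l + 2) := by ring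
      _ ≤ _ := mul_le_mul_of_nonneg_left (by linarith) h6
  · set f : ℕ → ℝ := fun l => if l ∈ Ty n then 0 else en n l with hf
    have hf0 : ∀ l, 0 ≤ f l := by
      intro l
      rw [hf]
      dsimp only
      split_ifs
      · exact le_refl _
      · exact en_nonneg n l
    set A : ℝ := 2 ^ n * B₁ / ((n : ℝ) + 1) ^ 5 with hA
    set B : ℝ := 2 ^ n * B₂ / ((n : ℝ) + 1) ^ 4 with hB
    have hA0 : 0 ≤ A := by positivity
    have hB0 : 0 ≤ B := by positivity
    have hfl : ∀ l, f l ≤ (if l ∈ Finset.range (10 * n + 1) then A else 0) + B * ρ ^ l := by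
      intro l
      have hBρ : 0 ≤ B * ρ ^ l := by positivity
      by_cases hT : l ∈ Ty n
      · have : f l = 0 := by rw [hf]; exact if_pos hT
        rw [this]
        have : 0 ≤ (if l ∈ Finset.range (10 * n + 1) then A else 0) := by
          split_ifs
          · exact hA0
          · exact le_refl _
        linarith
      · have hfe : f l = en n l := by rw [hf]; exact if_neg hT
        rw [hfe]
        rcases Nat.lt_or_ge (10 * n) l with hl | hl
        · rw [if_neg (by rw [Finset.mem_range]; omega), zero_add]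
          refine (en_le_large hoe flo n l hn hl).trans ?_
          have h3 : Real.exp (-((l : ℝ) / 40)) ≤ Real.exp (-((n : ℝ) / 8)) * ρ ^ l := by
            rw [hρl, ← Real.exp_add]
            refine Real.exp_le_exp.2 ?_
            have : (10 : ℝ) * n ≤ l := by exact_mod_cast hl.le
            linarith
          have h4 : Real.exp (-((n : ℝ) / 8)) ≤ B₂ / ((n : ℝ) + 1) ^ 4 := by
            rw [le_div_iff₀ (by positivity), mul_comm]
            exact h₂ n hn
          calc (2 : ℝ) ^ n * Real.exp (-((l : ℝ) / 40))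
              ≤ 2 ^ n * (B₂ / ((n : ℝ) + 1) ^ 4 * ρ ^ l) := by
                refine mul_le_mul_of_nonneg_left (h3.trans ?_) (by positivity)
                exact mul_le_mul_of_nonneg_right h4 (by positivity)
            _ = _ := by rw [hB]; ring
        · rw [if_pos (by rw [Finset.mem_range]; omega)]
          have h3 := en_le_small hoe flo n l hn hl hT
          have h4 : Real.exp (-((mn n : ℝ) ^ 2 / 2176)) ≤ B₁ / ((n : ℝ) + 1) ^ 5 := by
            rw [le_div_iff₀ (by positivity), mul_comm]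
            exact h₁ n hn
          have h5 : en n l ≤ A := by
            refine h3.trans ?_
            rw [hA, mul_div_assoc]
            exact mul_le_mul_of_nonneg_left h4 (by positivity)
          linarith
    refine Real.tsum_le_of_sum_range_le hf0 fun N => ?_
    calc ∑ l ∈ Finset.range N, f l
        ≤ ∑ l ∈ Finset.range N, ((if l ∈ Finset.range (10 * n + 1) then A else 0) + B * ρ ^ l) :=
          Finset.sum_le_sum fun l _ => hfl l
      _ = ∑ l ∈ Finset.range N, (if l ∈ Finset.range (10 * n + 1) then A else 0) +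
          B * ∑ l ∈ Finset.range N, ρ ^ l := by
          rw [Finset.sum_add_distrib, Finset.mul_sum]
      _ ≤ (10 * n + 1) * A + B * (1 - ρ)⁻¹ := by
          refine add_le_add ?_ (mul_le_mul_of_nonneg_left ?_ hB0)
          · rw [← Finset.sum_filter, Finset.sum_const, nsmul_eq_mul]
            refine mul_le_mul_of_nonneg_right ?_ hA0
            have : ((Finset.range N).filter (fun l => l ∈ Finset.range (10 * n + 1))).card ≤
                10 * n + 1 := by
              refine (Finset.card_le_card ?_).trans (Finset.card_range (10 * n + 1)).le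
              intro l hl
              exact (Finset.mem_filter.1 hl).2
            exact_mod_cast this
          · rw [← tsum_geometric_of_lt_one hρ0.le hρ1]
            exact hgeo.sum_le_tsum _ (fun l _ => by positivity)
      _ ≤ _ := by
          have h3 : (10 * (n : ℝ) + 1) * A ≤ 11 * B₁ * 2 ^ n / ((n : ℝ) + 1) ^ 4 := by
            rw [hA, le_div_iff₀ (by positivity)]
            have : (10 * (n : ℝ) + 1) * (2 ^ n * B₁ / ((n : ℝ) + 1) ^ 5) * ((n : ℝ) + 1) ^ 4 =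
                ((10 * (n : ℝ) + 1) / ((n : ℝ) + 1)) * (2 ^ n * B₁) := by
              field_simp
            rw [this]
            have h4 : (10 * (n : ℝ) + 1) / ((n : ℝ) + 1) ≤ 11 := by
              rw [div_le_iff₀ hn1]
              have : (0 : ℝ) ≤ n := Nat.cast_nonneg _
              linarith
            calc ((10 * (n : ℝ) + 1) / ((n : ℝ) + 1)) * (2 ^ n * B₁) ≤ 11 * (2 ^ n * B₁) :=
                  mul_le_mul_of_nonneg_right h4 (by positivity)
              _ = _ := by ring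
          calc (10 * (n : ℝ) + 1) * A + B * (1 - ρ)⁻¹
              ≤ 11 * B₁ * 2 ^ n / ((n : ℝ) + 1) ^ 4 + B * (1 - ρ)⁻¹ := by linarith
            _ = _ := by rw [hB]; ring

end Pool.Agent.WIR.H69
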